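import Pool.Agent.R484.GOe

/-!
# MP_80bee4_ag: geometric origin of lisse sheaves reduces to affine space

`GeometryAff K` (module `R484.GOe`) adds to the setting `Geometry K` (module `R484.GOb`: smooth
irreducible varieties over `F_q`, Weil groups, sheaves coming from geometry and their formal
properties, L. Lafforgue's theorem) the dimension, the affine spaces over `F_q` and Kedlaya's
theorem: every `X` of dimension `n` has a dense open part which is finite etale over the affine
space of dimension `n`.

`Conj G X` is question Q1 for `X`.  For every `n ≥ 1`, Q1 for all `X` of dimension at most `n` is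
equivalent to Q1 for the one variety `A^n` over `F_q`; in particular Q1 in all dimensions is
equivalent to Q1 for the affine spaces of arbitrarily large dimension.
-/

namespace Pool.Agent.Results.MP_80bee4_ag.AffineSpace

open Pool.Agent.R484.GO

theorem result {K : Type} [Field K] [TopologicalSpace K] [IsTopologicalRing K] [IsAlgClosed K]
    (G : GeometryAff K) :
    (∀ n : ℕ, 1 ≤ n → ((∀ X, G.dim X ≤ n → Conj G.toGeometry X) ↔
      Conj G.toGeometry (G.Aff n))) ∧
    ((∀ X, Conj G.toGeometry X) ↔ ∀ N : ℕ, ∃ n, N ≤ n ∧ Conj G.toGeometry (G.Aff n)) := by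
  have h1 : ∀ n : ℕ, 1 ≤ n → ((∀ X, G.dim X ≤ n → Conj G.toGeometry X) ↔
      Conj G.toGeometry (G.Aff n)) := by
    intro n _
    constructor
    · intro h
      exact h _ (G.aff_dim n).le
    · intro h X hX
      rcases Nat.eq_zero_or_pos (G.dim X) with h0 | h0
      · exact G.lafforgue X (G.small_dim X h0)
      · obtain ⟨p⟩ := G.aff_proj (G.dim X) n hX
        obtain ⟨U, g, e, he, hfi⟩ := G.kedlaya X h0
        exact conj_dom G.toGeometry g
          (conj_cover G.toGeometry e he hfi (conj_dom G.toGeometry p h))
  refine ⟨h1, fun h N => ⟨N, le_rfl, h _⟩, fun h X => ?_⟩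
  obtain ⟨n, hn, hc⟩ := h (max 1 (G.dim X))
  exact (h1 n (le_trans (le_max_left _ _) hn)).2 hc X (le_trans (le_max_right _ _) hn)

end Pool.Agent.Results.MP_80bee4_ag.AffineSpace
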