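import Pool.Agent.R905.GO.Main

/-!
# Geometric origin and smooth affine cubic hypersurfaces

`K` is the function field of a variety `X` over a finite field, `G` its absolute Galois group, `Λ` an
algebraic closure of `ℚ_ℓ` and `χ` the cyclotomic character; `H X n` is the `ℓ`-adic cohomology group
`H^n` of a `K`-scheme `X` over an algebraic closure of `K` and `Hc X n` its cohomology with compact
supports, both with the action of `G`.

Let `ρ` be irreducible. The property of `X` that no twist of `ρ` is a subquotient of its cohomology with
compact supports satisfies two-out-of-three for a closed subscheme and its complement, so it holds for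
all varieties if it holds for the smooth affine cubic hypersurfaces, or if it holds for the complements
of elementary arrangements of hypersurfaces in affine spaces; Poincaré duality for these schemes then
gives the statement for the cohomology without supports.
-/

set_option autoImplicit false

open AlgebraicGeometry Pool.Agent.R904.CU Pool.Agent.R904.EL Pool.Agent.R905.GO

namespace Pool.Agent.Results.MP_80bee4_ag.CubicsAndArrangements

/-- For every irreducible finite-dimensional representation `ρ` of `G` (more generally, every
irreducible finite-dimensional space with operators indexed by `G`) the following are equivalent: a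
twist of `ρ` is a subquotient of the cohomology of (1) some variety over `K`; (2) some smooth
hypersurface of degree at most three in an affine space over `K`; (3) the complement `a ≠ 0` of a
hypersurface in an affine space over `K`, for some product `a` of polynomials of the forms
`xᵢ xⱼ - xₖ`, `xᵢ + xⱼ - xₖ` and `xᵢ - c` with `c` in `K`. -/
theorem result (K Λ G : Type) [Field K] [Field Λ] [Group G] (χ : G →* Λˣ)
    (H Hc : Cohomology K Λ G) (hc : Hc.CompactSupports χ) (hD : Cohomology.Duality H Hc χ)
    (hA : Cohomology.Alterations H Hc χ) (W : Type) [AddCommGroup W] [Module Λ W]
    [Module.Finite Λ W] (ρ : G → Module.End Λ W) (hρ : Simple ρ) :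
    [∃ Y f, SepFinType K Y f ∧ H.OccursIn χ ρ Y f,
     ∃ (ι : Type) (_ : Fintype ι) (F : MvPolynomial ι K), IsSmoothCubic F ∧
       H.OccursIn χ ρ _ (hyp F),
     ∃ (ι : Type) (_ : Fintype ι) (a : MvPolynomial ι K), a ∈ elemProds (Set.univ : Set K) ι ∧
       H.OccursIn χ ρ _ (complHom a)].TFAE := by
  tfae_have 1 ↔ 2 := Cohomology.ordinary hc hD hA hρ
  tfae_have 1 ↔ 3 := Cohomology.ordinary_arr hc.1 hD hA hρ
  tfae_finish

end Pool.Agent.Results.MP_80bee4_ag.CubicsAndArrangements
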