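import Pool.Agent.R417.FA.FrobRoot

/-!
# Lisse sheaves of small rank on factorial varieties over finite fields

Let `k` be a finite field with `q` elements and `X = Spec R` a geometrically irreducible affine
variety over `k`, of any dimension, such that the ring `R̄` of functions on `X` over `k̄` is
factorial and every invertible element of `R̄` is a constant times an invertible element of `R`
(for example the complement in affine space of a hypersurface whose irreducible components are
geometrically irreducible).  Let `l` be a prime number different from the characteristic and `ρ` a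
lisse `l`-adic sheaf of rank `n` on `X` whose geometric monodromy is unipotent modulo `l`.  If `n`
is smaller than the order of `q` modulo `l`, then `ρ` is geometrically unipotent; it is
geometrically constant if it is semisimple, and it is a character of finite order of `Gal(k̄/k)` if
it is irreducible (over an algebraically closed field) with determinant of finite order.  The same
holds if `n < l`, `l ^ m > 2`, some power of `q` is congruent to `1` modulo `l ^ m` but not modulo
`l ^ (m + 1)` (this is so for all large `m` if `l` is odd), and `ρ` is geometrically trivial modulo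
`l ^ m` with nilpotent or triangular first layer.
-/

set_option autoImplicit false

open IsLocalRing

namespace Pool.Agent.Results.MP_80bee4_ag.FactorialVarieties

/-- a separable closure `Ω` of the function field `K = Frac R` -/
abbrev Om (R : Type) [CommRing R] [IsDomain R] : Type := SeparableClosure (FractionRing R)

/-- the absolute Galois group of `K`, with the Krull topology -/
abbrev GG (R : Type) [CommRing R] [IsDomain R] : Type :=
  Gal(SeparableClosure (FractionRing R)/FractionRing R)

/-- the ring `R̄` generated by `R` and `k̄` in `Ω` -/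
noncomputable def geomRing (k R : Type) [Field k] [CommRing R] [IsDomain R] [Algebra k R] :
    Subalgebra R (Om R) :=
  Algebra.adjoin R {x : Om R | IsAlgebraic k x}

/-- the absolute Galois group of the field `K k̄`, generated over `K` by the elements of `Ω` that
are algebraic over `k` -/
noncomputable def GeomGroup (k R : Type) [Field k] [CommRing R] [IsDomain R] [Algebra k R] :
    Subgroup (GG R) :=
  (IntermediateField.adjoin (FractionRing R) {x : Om R | IsAlgebraic k x}).fixingSubgroup

/-- The variety `X = Spec R` over `k` is geometrically irreducible, `R̄` is factorial and every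
invertible element of `R̄` is a constant times an invertible element of `R`. -/
structure Factorial (k R : Type) [Field k] [CommRing R] [IsDomain R] [Algebra k R] : Prop where
  irreducible : ∀ x : FractionRing R, IsAlgebraic k x → ∃ c : k, algebraMap k (FractionRing R) c = x
  factorial : UniqueFactorizationMonoid (geomRing k R)
  units : ∀ r ∈ geomRing k R, r ≠ 0 → r⁻¹ ∈ geomRing k R →
    ∃ (c : Om R) (x : R), IsAlgebraic k c ∧ IsUnit x ∧ r = c * algebraMap R (Om R) x

/-- the integral closure of `R` in `Ω` -/
noncomputable def intRing (R : Type) [CommRing R] [IsDomain R] : Subring (Om R) :=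
  (integralClosure R (Om R)).toSubring

variable {R : Type} [CommRing R] [IsDomain R]

/-- `g` lies in the inertia group at the ideal `P`: `g y - y` lies in `P` for all `y`. -/
def InInertia (P : Ideal (intRing R)) (g : GG R) : Prop :=
  ∀ y : intRing R, ∃ z ∈ P, (z : Om R) = g (y : Om R) - (y : Om R)

/-- `ρ` is a representation of the fundamental group of `X = Spec R` (a lisse sheaf on `X`): it is
trivial on the inertia groups at all prime ideals of the integral closure of `R` in `Ω`. -/
def Lisse {n : ℕ} {A : Type} [CommRing A] (ρ : GG R →* GL (Fin n) A) : Prop :=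
  ∀ P : Ideal (intRing R), P.IsPrime → ∀ τ : GG R, InInertia P τ → ρ τ = 1

/-- `σ` acts on `k̄` as the Frobenius `x ↦ x ^ q`. -/
def IsFrobenius (k : Type) [Field k] [Algebra k R] (σ : GG R) : Prop :=
  ∀ x : Om R, IsAlgebraic k x → σ x = x ^ Nat.card k

/-- The reduction of `ρ` has unipotent geometric monodromy: for all `g` in the geometric group,
some power of `ρ g - 1` has all entries in the maximal ideal. -/
def ResiduallyGeometricallyUnipotent (k : Type) [Field k] [Algebra k R] {n : ℕ} {A : Type}
    [CommRing A] [IsLocalRing A] (ρ : GG R →* GL (Fin n) A) : Prop :=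
  ∀ g ∈ GeomGroup k R, ∃ M : ℕ, ∀ i j,
    (((ρ g : Matrix (Fin n) (Fin n) A) - 1) ^ M) i j ∈ maximalIdeal A

/-- For every `x` in an algebraic closure of `κ`, one of `x, x c, …, x c ^ (N - 1)` is not an
eigenvalue of the matrix `T`. -/
def NoCoset {κ : Type} [Field κ] {n : ℕ} (T : Matrix (Fin n) (Fin n) κ) (c : κ) (N : ℕ) : Prop :=
  ∀ x : AlgebraicClosure κ, ∃ i < N,
    ¬ (T.charpoly.map (algebraMap κ (AlgebraicClosure κ))).IsRoot
      (x * algebraMap κ (AlgebraicClosure κ) c ^ i)

/-- The residue field is finite, the reduction of `ρ` has unipotent geometric monodromy and the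
rank is smaller than the order of `q` modulo `l`, or the set of eigenvalues of the reduction of
some Frobenius element contains no coset of the group generated by `q`. -/
def SmallRank (k : Type) [Field k] [Algebra k R] (l : ℕ) {n : ℕ} {A : Type}
    [CommRing A] [IsLocalRing A] (ρ : GG R →* GL (Fin n) A) : Prop :=
  Finite (ResidueField A) ∧ ResiduallyGeometricallyUnipotent k ρ ∧
    (n < orderOf (Nat.card k : ZMod l) ∨ ∃ σ : GG R, IsFrobenius k σ ∧
      NoCoset ((ρ σ : Matrix (Fin n) (Fin n) A).map (residue A)) (Nat.card k : ResidueField A)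
        (orderOf (Nat.card k : ZMod l)))

/-- the first layer of the geometric monodromy: the matrices `a` with `1 + r a = ρ g` for some `g`
in the geometric group -/
def FirstLayer (k : Type) [Field k] [Algebra k R] {n : ℕ} {A : Type} [CommRing A]
    (ρ : GG R →* GL (Fin n) A) (r : A) : Set (Matrix (Fin n) (Fin n) A) :=
  {a | ∃ g ∈ GeomGroup k R, (ρ g : Matrix (Fin n) (Fin n) A) = 1 + r • a}

/-- For some `K`, all products of `K` elements of `Y` are zero modulo the maximal ideal. -/
def NilpotentModulo {n : ℕ} {A : Type} [CommRing A] [IsLocalRing A]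
    (Y : Set (Matrix (Fin n) (Fin n) A)) : Prop :=
  ∃ K : ℕ, ∀ a : Fin K → Matrix (Fin n) (Fin n) A, (∀ s, a s ∈ Y) →
    ∀ i j, (List.ofFn a).prod i j ∈ maximalIdeal A

/-- the reduction of a matrix modulo the maximal ideal, over an algebraic closure of the residue
field -/
noncomputable def red {n : ℕ} {A : Type} [CommRing A] [IsLocalRing A]
    (a : Matrix (Fin n) (Fin n) A) :
    Matrix (Fin n) (Fin n) (AlgebraicClosure (ResidueField A)) :=
  (a.map (residue A)).map (algebraMap (ResidueField A) (AlgebraicClosure (ResidueField A)))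

/-- The reductions of the elements of `Y` modulo the maximal ideal are simultaneously upper
triangular in some basis over an algebraic closure of the residue field. -/
def TriangularModulo {n : ℕ} {A : Type} [CommRing A] [IsLocalRing A]
    (Y : Set (Matrix (Fin n) (Fin n) A)) : Prop :=
  ∃ Q : GL (Fin n) (AlgebraicClosure (ResidueField A)), ∀ a ∈ Y, ∀ i j, j < i →
    (Q.1 * red a * Q⁻¹.1) i j = 0

/-- the geometric monodromy is trivial modulo `r` -/
def GeomTrivialModulo (k : Type) [Field k] [Algebra k R] {n : ℕ} {A : Type} [CommRing A]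
    (ρ : GG R →* GL (Fin n) A) (r : A) : Prop :=
  ∀ g ∈ GeomGroup k R, ∃ a : Matrix (Fin n) (Fin n) A,
    (ρ g : Matrix (Fin n) (Fin n) A) = 1 + r • a

/-- `l ^ m > 2`, some power of `q` is congruent to `1` modulo `l ^ m` but not modulo `l ^ (m + 1)`,
the rank is smaller than `l`, the geometric monodromy is trivial modulo `l ^ m` and its first layer
is nilpotent or triangular modulo the maximal ideal. -/
def SmallLevel (k : Type) [Field k] [Algebra k R] (l : ℕ) {n : ℕ} {A : Type}
    [CommRing A] [IsLocalRing A] (ρ : GG R →* GL (Fin n) A) : Prop :=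
  (l : A) ≠ 0 ∧ n < l ∧ ∃ m d u : ℕ, 2 < l ^ m ∧ Nat.card k ^ d = 1 + l ^ m * u ∧ ¬ l ∣ u ∧
    GeomTrivialModulo k ρ ((l : A) ^ m) ∧ (NilpotentModulo (FirstLayer k ρ ((l : A) ^ m)) ∨
      TriangularModulo (FirstLayer k ρ ((l : A) ^ m)))

/-- the products of `N` of the matrices `ρ g - 1`, `g` in the geometric group, are zero -/
def ProductsVanish (k : Type) [Field k] [Algebra k R] {n : ℕ} {A : Type} [CommRing A]
    (ρ : GG R →* GL (Fin n) A) (N : ℕ) : Prop :=
  ∀ g : Fin N → GG R, (∀ s, g s ∈ GeomGroup k R) →
    (List.ofFn fun s => (ρ (g s) : Matrix (Fin n) (Fin n) A) - 1).prod = 0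

/-- the geometric monodromy is trivial -/
def GeomConstant (k : Type) [Field k] [Algebra k R] {n : ℕ} {A : Type} [CommRing A]
    (ρ : GG R →* GL (Fin n) A) : Prop :=
  ∀ g ∈ GeomGroup k R, ρ g = 1

/-- `W` is an invariant subspace of `Λ ^ n`. -/
def Invariant {n : ℕ} {A : Type} [CommRing A] {Λ : Type} [Field Λ] [Algebra A Λ]
    (ρ : GG R →* GL (Fin n) A) (W : Submodule Λ (Fin n → Λ)) : Prop :=
  ∀ g, ∀ w ∈ W, Matrix.mulVec ((ρ g : Matrix (Fin n) (Fin n) A).map (algebraMap A Λ)) w ∈ W

/-- The representation on the vector space `Λ ^ n` is semisimple: every invariant subspace has an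
invariant complement. -/
def Semisimple {n : ℕ} {A : Type} [CommRing A] (Λ : Type) [Field Λ] [Algebra A Λ]
    (ρ : GG R →* GL (Fin n) A) : Prop :=
  ∀ W : Submodule Λ (Fin n → Λ), Invariant ρ W →
    ∃ W' : Submodule Λ (Fin n → Λ), IsCompl W W' ∧ Invariant ρ W'

/-- The representation on the vector space `Λ ^ n` is irreducible. -/
def Irreducible {n : ℕ} {A : Type} [CommRing A] (Λ : Type) [Field Λ] [Algebra A Λ]
    (ρ : GG R →* GL (Fin n) A) : Prop :=
  n ≠ 0 ∧ ∀ W : Submodule Λ (Fin n → Λ), Invariant ρ W → W = ⊥ ∨ W = ⊤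

/-- the determinant has finite order -/
def FiniteDeterminant {n : ℕ} {A : Type} [CommRing A] (ρ : GG R →* GL (Fin n) A) : Prop :=
  ∃ M : ℕ, M ≠ 0 ∧ ∀ g, (ρ g : Matrix (Fin n) (Fin n) A).det ^ M = 1

theorem result (k : Type) [Field k] [Finite k] (R : Type) [CommRing R] [IsDomain R] [Algebra k R]
    (hR : Factorial k R) (l : ℕ) (hl : l.Prime) (hlk : (l : k) ≠ 0)
    (A : Type) [CommRing A] [IsDomain A] [IsLocalRing A] [IsNoetherianRing A] [TopologicalSpace A]
    (hA : IsAdic (maximalIdeal A)) (hlA : (l : A) ∈ maximalIdeal A)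
    (n : ℕ) (ρ : GG R →* GL (Fin n) A) (hρ : Continuous ρ) (hlisse : Lisse ρ)
    (h : SmallRank k l ρ ∨ SmallLevel k l ρ) :
    (∃ N, ProductsVanish k ρ N) ∧
    (∀ (Λ : Type) [Field Λ] [Algebra A Λ], Function.Injective (algebraMap A Λ) →
      Semisimple Λ ρ → GeomConstant k ρ) ∧
    ∀ (Λ : Type) [Field Λ] [IsAlgClosed Λ] [Algebra A Λ], Function.Injective (algebraMap A Λ) →
      Irreducible Λ ρ → FiniteDeterminant ρ →
        n = 1 ∧ GeomConstant k ρ ∧ (Set.range ρ).Finite := by
  classical
  have hmap : algebraMap k (Om R) (l : k) = (l : Om R) := map_natCast _ _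
  have hlΩ : (l : Om R) ≠ 0 := by
    rw [← hmap, Ne, map_eq_zero]
    exact hlk
  have : NeZero (l : Om R) := ⟨hlΩ⟩
  have : NeZero l := ⟨hl.ne_zero⟩
  obtain ⟨ζ, hζ⟩ := HasEnoughRootsOfUnity.exists_primitiveRoot (Om R) l
  have D := Pool.Agent.R417.FA.dat2 (k := k) (R := R) hl hlk hR.factorial hR.units hζ
  have hfrobroot : ∀ σ : GG R, IsFrobenius k σ → ∀ (K : ℕ) (z : Om R), z ^ (l ^ K) = 1 →
      σ z = z ^ Nat.card k := fun σ hσ K z hz =>
    hσ z (Pool.Agent.R417.FA.root_alg (pow_ne_zero _ hl.ne_zero) hz)
  have hur : ∀ P : Ideal (Pool.Agent.R417.FA.Bg R), P.IsPrime →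
      ∀ τ : (Pool.Agent.R417.FA.Lg k R).fixingSubgroup,
        Pool.Agent.R417.FA.Inert (Pool.Agent.R417.FA.Bg R) P (τ : GG R) → ρ τ = 1 :=
    fun P hP τ hτ => hlisse P hP τ hτ
  have hnil : ∃ N : ℕ, (Submodule.span A (Set.range
      fun g : (Pool.Agent.R417.FA.Lg k R).fixingSubgroup =>
        (ρ g : Matrix (Fin n) (Fin n) A) - 1)) ^ N = ⊥ := by
    rcases h with ⟨hfin, hres, h⟩ | ⟨hl0, hn, m, d, u, hm, hq, hu, hgeo, h⟩
    · obtain ⟨σ, hσ, h⟩ : ∃ σ : GG R, IsFrobenius k σ ∧ (n < orderOf (Nat.card k : ZMod l) ∨
          NoCoset ((ρ σ : Matrix (Fin n) (Fin n) A).map (residue A))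
            (Nat.card k : ResidueField A) (orderOf (Nat.card k : ZMod l))) := by
        rcases h with h | ⟨σ, hσ, h⟩
        · obtain ⟨σ, hσ⟩ := Pool.Agent.R417.FA.frob_exists (k := k) (F := FractionRing R)
            (Ω := Om R) hR.irreducible
          exact ⟨σ, hσ, Or.inl h⟩
        · exact ⟨σ, hσ, Or.inr h⟩
      exact ⟨_, Pool.Agent.R417.FA.mainGeo D hl hA hfin hlA hρ hur hres σ (Nat.card k)
        (fun z hz => hfrobroot σ hσ 1 z (by rw [pow_one]; exact hz)) h⟩
    · obtain ⟨σ, hσ⟩ := Pool.Agent.R417.FA.frob_root (k := k) (R := R) hl hR.irreducible d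
      rw [hq] at hσ
      have hm0 : m ≠ 0 := by
        rintro rfl
        rw [pow_zero] at hm
        omega
      choose! a' ha' using hgeo
      set a : (Pool.Agent.R417.FA.Lg k R).fixingSubgroup → Matrix (Fin n) (Fin n) A :=
        fun g => a' g with hadef
      have ha : ∀ g : (Pool.Agent.R417.FA.Lg k R).fixingSubgroup,
          (ρ g : Matrix (Fin n) (Fin n) A) = 1 + (l : A) ^ m • a g := fun g => ha' g g.2
      obtain ⟨hT, hrel⟩ := Pool.Agent.R417.FA.relGeo D hl hm hA hlA hl0 hρ hur ha hσ
      have hnil : ∃ K : ℕ, Submodule.span A (Set.range a) ^ K ≤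
          maximalIdeal A • (⊤ : Submodule A (Matrix (Fin n) (Fin n) A)) := by
        rcases h with ⟨K, hK⟩ | ⟨Q, hQ⟩
        · refine ⟨K, ?_⟩
          rw [Submodule.span_pow, Submodule.span_le]
          intro y hy
          rw [Set.mem_pow] at hy
          obtain ⟨f, rfl⟩ := hy
          refine Pool.Agent.W569.UG.mem_smul_top' _ _ (hK _ fun s => ?_)
          obtain ⟨g, hg⟩ := (f s).2
          refine ⟨g, g.2, ?_⟩
          rw [← hg]
          exact ha g
        · let ι : A →+* AlgebraicClosure (ResidueField A) :=
            (algebraMap (ResidueField A) (AlgebraicClosure (ResidueField A))).comp (residue A)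
          have hι : ∀ r, ι r = 0 ↔ r ∈ maximalIdeal A := by
            intro r
            show algebraMap (ResidueField A) (AlgebraicClosure (ResidueField A))
              (residue A r) = 0 ↔ _
            rw [map_eq_zero, residue_eq_zero_iff]
          let φ : Matrix (Fin n) (Fin n) A →+*
              Matrix (Fin n) (Fin n) (AlgebraicClosure (ResidueField A)) :=
            { toFun := fun X => Q.1 * ι.mapMatrix X * Q⁻¹.1
              map_one' := by
                rw [map_one, mul_one, Units.mul_inv]
              map_mul' := fun X Y => by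
                rw [map_mul]
                calc _ = Q.1 * ι.mapMatrix X * 1 * ι.mapMatrix Y * Q⁻¹.1 := by
                      rw [mul_one]
                      simp only [mul_assoc]
                  _ = _ := by
                      rw [← Units.inv_mul Q]
                      simp only [mul_assoc]
              map_zero' := by rw [map_zero, mul_zero, zero_mul]
              map_add' := fun X Y => by rw [map_add, mul_add, add_mul] }
          refine Pool.Agent.R417.GE.triNil (ρ σ).isUnit hl hn hlA hl0 hm0 hu hT hrel φ ι ?_ hι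
            ?_ ?_ ?_
          · intro r X
            have h1 : ι.mapMatrix (r • X) = ι r • ι.mapMatrix X := by
              ext i j
              rw [RingHom.mapMatrix_apply, Matrix.map_apply, Matrix.smul_apply, smul_eq_mul,
                map_mul]
              rfl
            show Q.1 * ι.mapMatrix (r • X) * _ = _
            rw [h1, mul_smul_comm, smul_mul_assoc]
            rfl
          · intro X
            show (Q.1 * ι.mapMatrix X * Q⁻¹.1).trace = _
            rw [Matrix.trace_mul_comm, ← mul_assoc, Units.inv_mul, one_mul]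
            exact (AddMonoidHom.map_trace ι X).symm
          · intro X hX i j
            have h1 : ι.mapMatrix X = 0 := by
              have h2 : Q.1 * ι.mapMatrix X * Q⁻¹.1 = 0 := hX
              rw [Units.mul_left_eq_zero, Units.mul_right_eq_zero] at h2
              exact h2
            exact (hι _).1 (congrFun (congrFun h1 i) j)
          · intro g i j hij
            exact hQ (a g) ⟨g, g.2, ha g⟩ i j hij
      obtain ⟨w1, w2, w3⟩ := Pool.Agent.R417.GE.WW_stable (a := a) (l := l) (m := m)
      have h1 := Pool.Agent.R417.GE.bigNil (ρ σ).isUnit hl hn hlA hl0 hm0 hu hT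
        (fun g => hrel (Pool.Agent.R417.GE.WW a l) w1 w2 w3 g) hnil
      refine ⟨n, ?_⟩
      rw [eq_bot_iff, ← h1]
      refine pow_le_pow_left' ?_ n
      rw [Submodule.span_le]
      rintro _ ⟨g, rfl⟩
      show (ρ g : Matrix (Fin n) (Fin n) A) - 1 ∈ _
      rw [ha, add_sub_cancel_left]
      exact Submodule.smul_mem _ _ (Submodule.subset_span ⟨g, rfl⟩)
  obtain ⟨N, hN⟩ := hnil
  have hconst : ∀ (Λ : Type) [Field Λ] [Algebra A Λ], Function.Injective (algebraMap A Λ) →
      Semisimple Λ ρ → GeomConstant k ρ := by
    intro Λ _ _ hinj hss g hg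
    exact Pool.Agent.R417.FA.trivial_of_semisimple hinj
      (Pool.Agent.R417.FA.Lg k R).fixingSubgroup ρ hN hss ⟨g, hg⟩
  refine ⟨⟨N, ?_⟩, fun Λ _ _ => hconst Λ, ?_⟩
  · intro g hg
    rw [← Submodule.mem_bot A, ← hN]
    rw [Submodule.span_pow]
    refine Submodule.subset_span ?_
    rw [Set.mem_pow]
    exact ⟨fun s => ⟨(ρ (g s) : Matrix (Fin n) (Fin n) A) - 1, ⟨⟨g s, hg s⟩, rfl⟩⟩, rfl⟩
  · intro Λ _ _ _ hinj hirr hdet
    have hc : GeomConstant k ρ := hconst Λ hinj (fun W hW => by
      rcases hirr.2 W hW with rfl | rfl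
      · exact ⟨⊤, isCompl_bot_top, fun g w _ => trivial⟩
      · refine ⟨⊥, isCompl_top_bot, fun g w hw => ?_⟩
        rw [Submodule.mem_bot] at hw ⊢
        rw [hw, Matrix.mulVec_zero])
    have hcomm : ∀ g h, ρ g * ρ h = ρ h * ρ g := by
      intro g h
      obtain ⟨x, hx, hgh⟩ := Pool.Agent.R417.FA.comm_fix (k := k) g h
      rw [← map_mul, hgh, map_mul, hc x hx, mul_one, map_mul]
    have hn1 : n = 1 := Pool.Agent.R417.FA.irr_comm (Λ := Λ) ρ hcomm hirr.1 hirr.2
    refine ⟨hn1, hc, ?_⟩
    subst hn1
    obtain ⟨M, hM0, hM⟩ := hdet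
    have : NeZero M := ⟨hM0⟩
    have hfinroots : ({x : A | x ^ M = 1}).Finite := by
      have h1 : {x : A | x ^ M = 1} ⊆ ((Polynomial.nthRootsFinset M (1 : A) : Finset A) : Set A) := by
        intro x hx
        rw [Finset.mem_coe, Polynomial.mem_nthRootsFinset (Nat.pos_of_ne_zero hM0)]
        exact hx
      exact (Finset.finite_toSet _).subset h1
    refine Set.Finite.of_finite_image (f := fun g : GL (Fin 1) A =>
      (g : Matrix (Fin 1) (Fin 1) A).det) (hfinroots.subset ?_) ?_
    · rintro _ ⟨_, ⟨g, rfl⟩, rfl⟩
      exact hM g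
    · rintro x _ y _ hxy
      apply Units.ext
      ext i j
      have h1 : (x : Matrix (Fin 1) (Fin 1) A).det = (y : Matrix (Fin 1) (Fin 1) A).det := hxy
      rw [Matrix.det_fin_one, Matrix.det_fin_one] at h1
      rw [Subsingleton.elim i 0, Subsingleton.elim j 0]
      exact h1

end Pool.Agent.Results.MP_80bee4_ag.FactorialVarieties
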