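import Pool.Agent.R484.GOd

/-!
# MP_80bee4_ag: geometric origin of lisse sheaves on products and fibrations

`Geometry K` (module `R484.GOb`) records the smooth irreducible varieties over a finite field,
their Weil groups, and published facts: the Kunneth formula for fundamental groups (one factor
proper), finiteness of the order of characters on the geometric fundamental group, the formal
properties of sheaves that are pure of weight zero and occur up to Tate twist in the cohomology of
a variety over the function field, and L. Lafforgue's theorem in dimension one.

`Conj G X` is question Q1 for `X`: every irreducible lisse sheaf on `X` with determinant of finite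
order comes from geometry.  We prove it, in every dimension, for the class `Nice` generated from
curves (and from any varieties for which it holds) by products with one factor proper, by passing to dominated varieties, and by fibrations
whose group of monodromy along the fibres is virtually abelian (for example families of abelian
varieties or of simply connected varieties); and for single sheaves on a fibration over a base of
this class.
-/

namespace Pool.Agent.Results.MP_80bee4_ag.ProductsAndFibrations

open Pool.Agent.R484.GO

/-- The varieties obtained from those of dimension at most one, and from any others for which the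
conjecture holds, by
* dominated varieties: `X' → X` dominant, `X'` in the class;
* products of two members, geometrically connected, at least one of them proper;
* fibrations: `f : X → S` dominant, `S` in the class, `W X → W S` onto (the generic fibre is
  geometrically connected) and the kernel has an abelian subgroup of finite index, normal in
  `W X`. -/
inductive Nice {K : Type} [Field K] [TopologicalSpace K] (G : Geometry K) : G.Var → Prop
  | base (X : G.Var) : G.Small X ∨ Conj G X → Nice G X
  | dominated {X' X : G.Var} (f : G.Dom X' X) : Nice G X' → Nice G X
  | product {Z X Y : G.Var} (p : G.Dom Z X) (q : G.Dom Z Y) : G.IsProd p q →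
      Nice G X → Nice G Y → Nice G Z
  | fibration {X S : G.Var} (f : G.Dom X S) (M : Subgroup (G.W X)) :
      Function.Surjective (G.map f) → M.Normal → M ≤ (G.map f).ker →
      M.relIndex (G.map f).ker ≠ 0 → (∀ a ∈ M, ∀ b ∈ M, a * b = b * a) → Nice G S → Nice G X

theorem result {K : Type} [Field K] [TopologicalSpace K] [IsTopologicalRing K] [T2Space K]
    [IsAlgClosed K] (G : Geometry K) :
    -- (1) the conjecture for the whole class
    (∀ X, Nice G X → Conj G X) ∧
    -- (2) single sheaves on a fibration over a base of the class
    (∀ {X S : G.Var} (f : G.Dom X S), Function.Surjective (G.map f) → Nice G S →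
      ∀ (V : Type) [AddCommGroup V] [Module K V] [FiniteDimensional K V]
        (ρ : Representation K (G.W X) V), Cts ρ → Irr ρ → FinDet ρ →
        -- virtually abelian monodromy along the fibres
        ((∃ M : Subgroup (G.W X), M.Normal ∧ M ≤ (G.map f).ker ∧
            M.relIndex (G.map f).ker ≠ 0 ∧ ∀ a ∈ M, ∀ b ∈ M, ρ a * ρ b = ρ b * ρ a) ∨
        -- or: along the fibres, `ρ` receives a nonzero map from a sheaf coming from geometry
          (∃ (A : Type) (_ : AddCommGroup A) (_ : Module K A) (_ : FiniteDimensional K A)
            (α : Representation K (G.W X) A) (T : A →ₗ[K] V), G.Geom X α ∧ T ≠ 0 ∧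
            ∀ n, G.map f n = 1 → ∀ a, T (α n a) = ρ n (T a))) →
        G.Geom X ρ) := by
  have h1 : ∀ X, Nice G X → Conj G X := by
    intro X hX
    induction hX with
    | base X h =>
      rcases h with h | h
      · exact G.lafforgue X h
      · exact h
    | dominated f _ ih => exact conj_dom G f ih
    | product p q hpq _ _ ih1 ih2 => exact conj_prod G p q hpq ih1 ih2
    | fibration f M hf hM hMN hfin hab _ ih =>
      intro V _ _ _ ρ hc hi hd
      have := hM
      exact fib_one G f hf ih ρ hc hi hd M hMN hfin (fun a ha b hb => by
        rw [← map_mul, hab a ha b hb, map_mul])
  refine ⟨h1, ?_⟩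
  intro X S f hf hS V _ _ _ ρ hc hi hd h
  rcases h with ⟨M, hM, hMN, hfin, hab⟩ | ⟨A, _, _, _, α, T, hα, hT0, hT⟩
  · have := hM
    exact fib_one G f hf (h1 S hS) ρ hc hi hd M hMN hfin hab
  · exact criterion G f hf (h1 S hS) ρ hc hi hd α hα T hT0 hT

end Pool.Agent.Results.MP_80bee4_ag.ProductsAndFibrations
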